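import Pool.Agent.Helper2.EC_C.Goals
import Pool.Agent.Helper2.EC_C.Basic

/-!
# MP_ecc237_nt (S18871), PART C, packet K1
-/

set_option autoImplicit false

namespace ECC.PkK1

open EC237

theorem e3_neg (n : ℤ) : e3 (-n) = e3 n := by
  unfold e3
  by_cases h : n % 3 = 0
  · rw [if_pos h, if_pos (by omega)]
  · rw [if_neg h, if_neg (by omega)]

theorem chi_zero {n : ℤ} (h : n % 3 = 0) : chi n = 0 := by
  unfold chi
  rw [if_neg (by omega), if_neg (by omega)]

theorem chi_one {n : ℤ} (h : n % 3 = 1) : chi n = 1 := by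
  unfold chi
  rw [if_pos h]

theorem chi_two {n : ℤ} (h : n % 3 = 2) : chi n = -1 := by
  unfold chi
  rw [if_neg (by omega), if_pos h]

theorem e3_zero {n : ℤ} (h : n % 3 = 0) : e3 n = 1 := by
  unfold e3
  rw [if_pos h]

theorem e3_ne {n : ℤ} (h : n % 3 ≠ 0) : e3 n = -1 / 2 := by
  unfold e3
  rw [if_neg h]

theorem kernel (a b : ℤ) : e3 (a - b) - e3 (a + b) = 3 / 2 * chi a * chi b := by
  have ha : a % 3 = 0 ∨ a % 3 = 1 ∨ a % 3 = 2 := by omega
  have hb : b % 3 = 0 ∨ b % 3 = 1 ∨ b % 3 = 2 := by omega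
  rcases ha with ha | ha | ha <;> rcases hb with hb | hb | hb
  · rw [e3_zero (by omega), e3_zero (by omega), chi_zero ha, chi_zero hb]; ring
  · rw [e3_ne (by omega), e3_ne (by omega), chi_zero ha, chi_one hb]; ring
  · rw [e3_ne (by omega), e3_ne (by omega), chi_zero ha, chi_two hb]; ring
  · rw [e3_ne (by omega), e3_ne (by omega), chi_one ha, chi_zero hb]; ring
  · rw [e3_zero (by omega), e3_ne (by omega), chi_one ha, chi_one hb]; ring
  · rw [e3_ne (by omega), e3_zero (by omega), chi_one ha, chi_two hb]; ring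
  · rw [e3_ne (by omega), e3_ne (by omega), chi_two ha, chi_zero hb]; ring
  · rw [e3_ne (by omega), e3_zero (by omega), chi_two ha, chi_one hb]; ring
  · rw [e3_zero (by omega), e3_ne (by omega), chi_two ha, chi_two hb]; ring

theorem closed (M : ℕ) (hM : 1 ≤ M) : ∑ j ∈ Finset.Ico 1 M, e3 (j:ℤ) =
    -1 / 2 + chi (M:ℤ) / 4 - e3 (M:ℤ) / 2 := by
  induction M, hM using Nat.le_induction with
  | base =>
    rw [Finset.Ico_self, Finset.sum_empty, chi_one (by norm_num), e3_ne (by norm_num)]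
    norm_num
  | succ M hM ih =>
    rw [Finset.sum_Ico_succ_top hM, ih]
    have h : (M : ℤ) % 3 = 0 ∨ (M : ℤ) % 3 = 1 ∨ (M : ℤ) % 3 = 2 := by omega
    push_cast
    rcases h with h | h | h
    · rw [chi_zero h, e3_zero h, chi_one (by omega), e3_ne (by omega)]; norm_num
    · rw [chi_one h, e3_ne (by omega), chi_two (by omega), e3_ne (by omega)]; norm_num
    · rw [chi_two h, e3_ne (by omega), chi_zero (by omega), e3_zero (by omega)]; norm_num

theorem e3_eq (M : ℕ) : e3 (M:ℤ) = -1 / 2 + 3 / 2 * (if 3 ∣ M then 1 else 0) := by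
  by_cases h : 3 ∣ M
  · rw [if_pos h, e3_zero (by omega)]; norm_num
  · rw [if_neg h, e3_ne (by omega)]; norm_num

theorem one_le_pow (n : ℤ) (k : ℕ) : (1 : ℝ) ≤ (|(n:ℝ)| + 1) ^ k :=
  one_le_pow₀ (by linarith [abs_nonneg (n:ℝ)])

theorem k1 (ram : G_RAM) : G_K1 := by
  intro q hq
  have h := ram e3 1 (fun _ n => 3 / 2 * chi n) (fun _ n => chi n) (3 / 2) 0 e3_neg
    (fun n => by
      rw [pow_zero, mul_one]
      exact (abs_e3_le n).trans (by norm_num))
    (fun _ n => by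
      rw [pow_zero, mul_one, abs_mul, abs_of_pos (by norm_num : (0:ℝ) < 3 / 2)]
      have := abs_chi_le n
      linarith)
    (fun _ n => by
      rw [pow_zero, mul_one]
      exact (abs_chi_le n).trans (by norm_num))
    (fun a b _ _ => by
      rw [Finset.sum_range_one]
      exact kernel a b) q hq
  rw [Finset.sum_range_one, e3_zero (by norm_num), one_mul] at h
  have pgN : PG (fun _ ν => (ν:ℝ)) := PG.N
  have pgM : PG (fun M _ => (M:ℝ)) := PG.M
  have pg1 : PG (fun _ _ => (1:ℝ)) := PG.const 1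
  have pgI : PG (fun M _ => if 3 ∣ M then (1:ℝ) else 0) := PG.ite (PG.const 1) (fun M _ => 3 ∣ M)
  -- LS (ν e3)
  have s1 : LS (fun M ν => (ν:ℝ) * e3 (M:ℤ)) q = -1 / 2 * GS q + 3 / 2 * GS (q ^ 3) := by
    have e : LS (fun M ν => (ν:ℝ) * e3 (M:ℤ)) q =
        LS (fun M ν => -1 / 2 * (ν:ℝ) + 3 / 2 * (if 3 ∣ M then (ν:ℝ) else 0)) q := by
      refine LS_congr (fun M ν _ _ => ?_) q
      rw [e3_eq]
      split_ifs <;> ring
    rw [e, LS_add ((PG.const _).mul pgN) ((PG.const _).mul (PG.ite pgN (fun M _ => 3 ∣ M))) hq,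
      LS_mul_left, LS_mul_left, LS_sieveM (fun _ ν => (ν:ℝ)) (by norm_num)]
    rfl
  have s2 : LS (fun M ν => (M:ℝ) * e3 (M:ℤ)) q = -1 / 2 * GS q + 9 / 2 * GS (q ^ 3) := by
    have e : LS (fun M ν => (M:ℝ) * e3 (M:ℤ)) q =
        LS (fun M ν => -1 / 2 * (M:ℝ) + 3 / 2 * (if 3 ∣ M then (M:ℝ) else 0)) q := by
      refine LS_congr (fun M ν _ _ => ?_) q
      rw [e3_eq]
      split_ifs <;> ring
    have e2 : LS (fun M _ => (M:ℝ)) q = GS q := LS_swap (fun _ ν => (ν:ℝ)) q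
    have e3' : LS (fun M _ => ((3 * M : ℕ):ℝ)) (q ^ 3) = 3 * GS (q ^ 3) := by
      have e4 : LS (fun M _ => ((3 * M : ℕ):ℝ)) (q ^ 3) =
          LS (fun M _ => 3 * (M:ℝ)) (q ^ 3) := by
        refine LS_congr (fun M ν _ _ => ?_) _
        push_cast
        ring
      rw [e4, LS_mul_left, LS_swap (fun _ ν => (ν:ℝ)) (q ^ 3)]
      rfl
    rw [e, LS_add ((PG.const _).mul pgM) ((PG.const _).mul (PG.ite pgM (fun M _ => 3 ∣ M))) hq,
      LS_mul_left, LS_mul_left, LS_sieveM (fun M _ => (M:ℝ)) (by norm_num), e2, e3']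
    ring
  have s3 : LS (fun M _ => ((M:ℝ) + 1) * e3 (M:ℤ)) q =
      LS (fun M _ => (M:ℝ) * e3 (M:ℤ)) q + LS (fun M _ => e3 (M:ℤ)) q := by
    rw [← LS_add (pgM.mul PG.e3) PG.e3 hq]
    exact LS_congr (fun M ν _ _ => by ring) q
  have s4 : LS (fun M _ => ∑ j ∈ Finset.Ico 1 M, e3 (j:ℤ)) q =
      -1 / 2 * LS (fun _ _ => (1:ℝ)) q + 1 / 4 * LS (fun M _ => chi (M:ℤ)) q -
        1 / 2 * LS (fun M _ => e3 (M:ℤ)) q := by
    rw [← LS_mul_left, ← LS_mul_left, ← LS_mul_left,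
      ← LS_add ((PG.const _).mul pg1) ((PG.const _).mul PG.chi) hq,
      ← LS_sub (((PG.const _).mul pg1).add ((PG.const _).mul PG.chi)) ((PG.const _).mul PG.e3) hq]
    refine LS_congr (fun M ν hM _ => ?_) q
    rw [closed M hM]
    ring
  have s5 : LS (fun M _ => 3 / 2 * chi (M:ℤ)) q = 3 / 2 * LS (fun M _ => chi (M:ℤ)) q :=
    LS_mul_left _ _ _
  have s6 : LS (fun _ ν => (ν:ℝ)) q = GS q := rfl
  rw [s1, s3, s2, s4, s5, s6] at h
  unfold aS
  linear_combination 24 * h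

end ECC.PkK1
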